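import Pool.Agent.Lib_MP_d63bef_al.Main

/-!
# MP_d63bef_al: Leonard pairs with `β = 2` that do not come from the equitable basis of `sl2`
-/

universe u

open Pool.Agent.Lib_MP_d63bef_al

namespace Pool.Agent.Results.MP_d63bef_al.NonSquare

/-- Over every field `K` of characteristic zero that contains a non-square there is a Leonard pair
`A, B` (of diameter `2`) with `β = 2` for which no irreducible `sl2`-module structure on the
underlying space makes `A` a linear combination of `I, x, y, xy` and `B` a linear combination of
`I, y, z, yz`. -/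
theorem result (K : Type u) [Field K] [CharZero K] (hK : ∃ δ : K, ¬ IsSquare δ) :
    ∃ A B : (Fin 3 → K) →ₗ[K] (Fin 3 → K),
      IsLeonardPair 2 A B ∧ BetaEqTwo 2 A B ∧ ¬ HasSl2Form A B := by
  obtain ⟨δ, hδ⟩ := hK
  have h9 : δ ≠ 9 := fun h => hδ ⟨3, by rw [h]; norm_num⟩
  have h25 : δ ≠ 25 := fun h => hδ ⟨5, by rw [h]; norm_num⟩
  have h1 : δ ≠ 1 := fun h => hδ ⟨1, by rw [h]; norm_num⟩
  refine ⟨Matrix.toLin' (matA K), Matrix.toLin' (matB ((δ - 9) / 2)), ?_, ?_, main δ hδ⟩
  · apply isLeonardPair
    · intro h
      apply h9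
      linear_combination 2 * h
    · intro h
      apply h25
      linear_combination 2 * h
    · intro h
      apply h1
      linear_combination 2 * h
  · constructor
    intro b θ _ k hk
    omega

end Pool.Agent.Results.MP_d63bef_al.NonSquare
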